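import Pool.Agent.H560.SI.Stm

/-!
# A positive proportion of every interval longer than the square root is smooth (task SM)
-/

set_option autoImplicit false


open Finset Polynomial
open scoped Classical
open Pool.Agent.H694.Typ
open Pool.Agent.H560.SI

namespace Pool.Agent.H113.SI

variable {K : Type} [Field K] [Fintype K]

/-- the squarefree monic polynomials of degree `j` -/
noncomputable def Qn (K : Type) [Field K] [Fintype K] (j : ℕ) : Finset K[X] :=
  (Mn K j).filter Squarefree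

theorem mem_Qn {j : ℕ} {w : K[X]} : w ∈ Qn K j ↔ w.Monic ∧ w.natDegree = j ∧ Squarefree w := by
  unfold Qn
  rw [mem_filter, mem_Mn]
  tauto

theorem sqf_lower (j : ℕ) : (Fintype.card K : ℝ) ^ j / 4 ≤ ((Qn K j).card : ℝ) := by
  have hq := q_ge (k := K)
  have h0 : ((Mn K j).filter (fun b => ¬ Squarefree b)) ⊆
      (PU K j).biUnion (fun P => (Mn K j).filter (fun b => P ^ 2 ∣ b)) := by
    intro b hb
    rw [mem_filter] at hb
    obtain ⟨hb, hs⟩ := hb
    have hb' := mem_Mn.1 hb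
    rw [squarefree_iff_irreducible_sq_not_dvd_of_ne_zero hb'.1.ne_zero] at hs
    push Not at hs
    obtain ⟨x, hx, hxb⟩ := hs
    have hn : Irreducible (normalize x) := (associated_normalize x).irreducible hx
    have hd : (normalize x) ^ 2 ∣ b := by
      rw [sq]
      exact ((normalize_associated x).mul_mul (normalize_associated x)).dvd.trans hxb
    rw [mem_biUnion]
    refine ⟨normalize x, mem_PU.2 ⟨monic_normalize hx.ne_zero, hn, ?_⟩, mem_filter.2 ⟨hb, hd⟩⟩
    have := natDegree_le_of_dvd ((dvd_pow_self _ two_ne_zero).trans hd) hb'.1.ne_zero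
    rwa [hb'.2] at this
  have h1 : (((Mn K j).filter (fun b => ¬ Squarefree b)).card : ℝ) ≤
      ∑ P ∈ PU K j, (((Mn K j).filter (fun b => P ^ 2 ∣ b)).card : ℝ) := by
    have := (card_le_card h0).trans card_biUnion_le
    exact_mod_cast this
  have h2 : ∑ P ∈ PU K j, (((Mn K j).filter (fun b => P ^ 2 ∣ b)).card : ℝ) ≤
      ∑ P ∈ PU K j, (Fintype.card K : ℝ) ^ j * (wt K P.natDegree * wt K P.natDegree) := by
    refine sum_le_sum fun P hP => ?_
    rw [mem_PU] at hP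
    refine (card_dvd_le (hP.1.pow 2)).trans ?_
    rw [natDegree_pow, two_mul, wt_add]
  rw [sum_PU j (fun P => (Fintype.card K : ℝ) ^ j * (wt K P.natDegree * wt K P.natDegree))] at h2
  have h3 : ∀ d ∈ Finset.Icc 1 j, ∑ P ∈ Irn K d, (Fintype.card K : ℝ) ^ j *
      (wt K P.natDegree * wt K P.natDegree) ≤ (Fintype.card K : ℝ) ^ j *
        ((if d = 1 then 1 / 4 else 0) + 1 / 2 * (1 / 2) ^ d) := by
    intro d hd
    rw [mem_Icc] at hd
    rw [sum_congr rfl (fun P hP => by rw [(mem_Irn.1 hP).2.1]), sum_const, nsmul_eq_mul]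
    have hd0 : (0 : ℝ) < d := by exact_mod_cast hd.1
    have e1 : (d : ℝ) * (Irn K d).card ≤ (Fintype.card K : ℝ) ^ d := by
      exact_mod_cast irn_one_le (k := K) (d := d) (by omega)
    have hpos : (0 : ℝ) < (Fintype.card K : ℝ) ^ d := by positivity
    have e2 : ((Irn K d).card : ℝ) * wt K d ≤ 1 / d := by
      unfold wt
      rw [← div_eq_mul_inv, div_le_div_iff₀ hpos hd0]
      linarith
    have e3 := wt_le_half (k := K) d
    have e4 := wt_nonneg (k := K) d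
    have e5 : 1 / (d : ℝ) * (1 / 2) ^ d ≤ (if d = 1 then 1 / 4 else 0) + 1 / 2 * (1 / 2) ^ d := by
      split_ifs with h
      · subst h; norm_num
      · have h2 : (2 : ℝ) ≤ d := by exact_mod_cast (show 2 ≤ d by omega)
        have h3 : 1 / (d : ℝ) ≤ 1 / 2 := one_div_le_one_div_of_le (by norm_num) h2
        rw [zero_add]
        gcongr
    calc ((Irn K d).card : ℝ) * ((Fintype.card K : ℝ) ^ j * (wt K d * wt K d))
        = (Fintype.card K : ℝ) ^ j * ((((Irn K d).card : ℝ) * wt K d) * wt K d) := by ring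
      _ ≤ (Fintype.card K : ℝ) ^ j * ((1 / d) * (1 / 2) ^ d) := by gcongr
      _ ≤ _ := by gcongr
  have h4 := h1.trans (h2.trans (sum_le_sum h3))
  rw [← mul_sum, sum_add_distrib, ← mul_sum] at h4
  have h5 : ∑ d ∈ Finset.Icc 1 j, (if d = 1 then (1 / 4 : ℝ) else 0) ≤ 1 / 4 := by
    rw [sum_ite_eq']
    split_ifs <;> norm_num
  have h6 : ∑ d ∈ Finset.Icc 1 j, (1 / 2 : ℝ) ^ d ≤ 1 := by
    have := geo_half_le 0 j
    simpa using this
  have h7 : (((Mn K j).filter (fun b => ¬ Squarefree b)).card : ℝ) ≤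
      (Fintype.card K : ℝ) ^ j * (3 / 4) := by
    refine h4.trans ?_
    gcongr
    linarith
  have h8 : (((Qn K j).card : ℝ) + ((Mn K j).filter (fun b => ¬ Squarefree b)).card : ℝ) =
      (Fintype.card K : ℝ) ^ j := by
    have := Finset.card_filter_add_card_filter_not (s := Mn K j) Squarefree
    rw [card_Mn] at this
    unfold Qn
    exact_mod_cast this
  linarith

theorem irn_lower {a N : ℕ} (ha : 4 ≤ a) (haN : a ≤ N) :
    (Fintype.card K : ℝ) ^ a / (2 * N) ≤ ((Irn K a).card : ℝ) := by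
  have hq := q_ge (k := K)
  have h := irn_wt_ge (k := K) ha
  rw [sum_congr rfl (fun P hP => by rw [(mem_Irn.1 hP).2.1]), sum_const, nsmul_eq_mul] at h
  have hpos : (0 : ℝ) < (Fintype.card K : ℝ) ^ a := by positivity
  have ha0 : (0 : ℝ) < a := by exact_mod_cast (show 0 < a by omega)
  have haN' : (a : ℝ) ≤ N := by exact_mod_cast haN
  unfold wt at h
  have h1 : (Fintype.card K : ℝ) ^ a * (1 / (2 * (a : ℝ))) ≤ ((Irn K a).card : ℝ) := by
    calc (Fintype.card K : ℝ) ^ a * (1 / (2 * (a : ℝ))) ≤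
        (Fintype.card K : ℝ) ^ a * (((Irn K a).card : ℝ) * ((Fintype.card K : ℝ) ^ a)⁻¹) := by
          gcongr
      _ = _ := by field_simp
  refine le_trans ?_ h1
  rw [div_eq_mul_one_div]
  gcongr

theorem div_facts {N j : ℕ} {S w : K[X]} (hS : S.Monic) (hSN : S.natDegree = N) (hw : w.Monic)
    (hwj : w.natDegree = j) (hj : j ≤ N) : (S /ₘ w).Monic ∧ (S /ₘ w).natDegree = N - j ∧
      (S - w * (S /ₘ w)).degree < (j : WithBot ℕ) := by
  have h1 : w.degree ≤ S.degree := by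
    rw [degree_eq_natDegree hw.ne_zero, degree_eq_natDegree hS.ne_zero, hSN, hwj]
    exact_mod_cast hj
  refine ⟨?_, ?_, ?_⟩
  · unfold Monic
    rw [leadingCoeff_divByMonic_of_monic hw h1]
    exact hS
  · rw [natDegree_divByMonic _ hw, hSN, hwj]
  · have h2 := modByMonic_add_div S w
    have h3 : S - w * (S /ₘ w) = S %ₘ w := by
      linear_combination -h2
    rw [h3]
    refine (degree_modByMonic_lt S hw).trans_le ?_
    rw [degree_eq_natDegree hw.ne_zero, hwj]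

theorem perw {r : ℕ} {C : ℝ} (hC : 0 < C)
    (hP : ∀ (N H : ℕ) (a : Fin r → ℕ) (S : K[X]), (∀ i, 1 ≤ a i) → ∑ i, a i = N → H ≤ N →
      S.Monic → S.natDegree = N →
      |(((Fintype.piFinset fun i => Irn K (a i)).filter
          (fun P => (∏ i, P i - S).degree < (H : WithBot ℕ))).card : ℝ) -
        (∏ i, ((Irn K (a i)).card : ℝ)) * (Fintype.card K : ℝ) ^ H / (Fintype.card K : ℝ) ^ N| ≤
        (C * N) ^ r * (Fintype.card K : ℝ) ^ ((N : ℝ) / 2))
    {N H j : ℕ} (a : Fin r → ℕ) (ha : ∀ i, 4 ≤ a i) (haj : ∑ i, a i + j = N) (hjH : j ≤ H)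
    (hHN : H ≤ N) {S w : K[X]} (hS : S.Monic) (hSN : S.natDegree = N) (hw : w.Monic)
    (hwj : w.natDegree = j) :
    (Fintype.card K : ℝ) ^ (H - j) / (2 * N) ^ r -
      (C * N) ^ r * (Fintype.card K : ℝ) ^ (((N - j : ℕ) : ℝ) / 2) ≤
      (((Fintype.piFinset fun i => Irn K (a i)).filter
        (fun P => (w * ∏ i, P i - S).degree < (H : WithBot ℕ))).card : ℝ) := by
  have hq := q_ge (k := K)
  obtain ⟨f1, f2, f3⟩ := div_facts hS hSN hw hwj (hjH.trans hHN)
  have h1 := hP (N - j) (H - j) a (S /ₘ w) (fun i => le_trans (by norm_num) (ha i)) (by omega)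
    (by omega) f1 f2
  have hsub : ((Fintype.piFinset fun i => Irn K (a i)).filter
      (fun P => (∏ i, P i - (S /ₘ w)).degree < ((H - j : ℕ) : WithBot ℕ))) ⊆
      ((Fintype.piFinset fun i => Irn K (a i)).filter
        (fun P => (w * ∏ i, P i - S).degree < (H : WithBot ℕ))) := by
    intro P hPP
    rw [mem_filter] at hPP ⊢
    refine ⟨hPP.1, ?_⟩
    have e : w * ∏ i, P i - S = w * (∏ i, P i - (S /ₘ w)) - (S - w * (S /ₘ w)) := by ring
    rw [e]
    refine (degree_sub_le _ _).trans_lt ?_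
    rw [max_lt_iff]
    constructor
    · by_cases h0 : (∏ i, P i - (S /ₘ w)) = 0
      · rw [h0, mul_zero, degree_zero]
        exact WithBot.bot_lt_coe _
      · have h2 := hPP.2
        rw [degree_eq_natDegree h0] at h2
        have h2' : (∏ i, P i - (S /ₘ w)).natDegree < H - j := by exact_mod_cast h2
        rw [degree_mul, degree_eq_natDegree h0, degree_eq_natDegree hw.ne_zero, hwj]
        have : j + (∏ i, P i - (S /ₘ w)).natDegree < H := by omega
        exact_mod_cast this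
    · refine f3.trans_le ?_
      exact_mod_cast hjH
  have h2 := card_le_card hsub
  have h2' : (((Fintype.piFinset fun i => Irn K (a i)).filter
      (fun P => (∏ i, P i - (S /ₘ w)).degree < ((H - j : ℕ) : WithBot ℕ))).card : ℝ) ≤
      (((Fintype.piFinset fun i => Irn K (a i)).filter
        (fun P => (w * ∏ i, P i - S).degree < (H : WithBot ℕ))).card : ℝ) := by
    exact_mod_cast h2
  refine le_trans ?_ h2'
  have h3 := (abs_le.1 h1).1
  have hsum : ∑ i, a i = N - j := by omega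
  have h4 : (Fintype.card K : ℝ) ^ (N - j) / (2 * N) ^ r ≤ ∏ i, ((Irn K (a i)).card : ℝ) := by
    have h5 : ∏ i : Fin r, ((Fintype.card K : ℝ) ^ (a i) / (2 * N)) ≤
        ∏ i, ((Irn K (a i)).card : ℝ) := by
      refine prod_le_prod (fun i _ => by positivity) fun i _ => irn_lower (ha i) ?_
      have := Finset.single_le_sum (f := a) (fun _ _ => Nat.zero_le _) (Finset.mem_univ i)
      omega
    rw [prod_div_distrib, prod_pow_eq_pow_sum, hsum, prod_const, Finset.card_univ,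
      Fintype.card_fin] at h5
    exact h5
  have h6 : (Fintype.card K : ℝ) ^ (H - j) / (2 * N) ^ r ≤ (∏ i, ((Irn K (a i)).card : ℝ)) *
      (Fintype.card K : ℝ) ^ (H - j) / (Fintype.card K : ℝ) ^ (N - j) := by
    have hpos : (0 : ℝ) < (Fintype.card K : ℝ) ^ (N - j) := by positivity
    rw [le_div_iff₀ hpos]
    calc (Fintype.card K : ℝ) ^ (H - j) / (2 * N) ^ r * (Fintype.card K : ℝ) ^ (N - j)
        = ((Fintype.card K : ℝ) ^ (N - j) / (2 * N) ^ r) * (Fintype.card K : ℝ) ^ (H - j) := by ring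
      _ ≤ _ := by gcongr
  have h7 : (C * ((N - j : ℕ) : ℝ)) ^ r * (Fintype.card K : ℝ) ^ (((N - j : ℕ) : ℝ) / 2) ≤
      (C * N) ^ r * (Fintype.card K : ℝ) ^ (((N - j : ℕ) : ℝ) / 2) := by
    have : ((N - j : ℕ) : ℝ) ≤ N := by exact_mod_cast Nat.sub_le _ _
    gcongr
  linarith

/-- the error term is negligible -/
theorem err {r : ℕ} {C δ q : ℝ} (hC : 0 < C) (hδ : 0 < δ) (hq : 2 ≤ q) :
    ∃ n₀ : ℕ, 1 ≤ n₀ ∧ ∀ N : ℕ, n₀ ≤ N → ∀ H j : ℕ, (1 / 2 + δ) * N ≤ (H : ℝ) → (j : ℝ) ≤ δ * N →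
      j ≤ H → j ≤ N → (C * N) ^ r * q ^ (((N - j : ℕ) : ℝ) / 2) ≤
        1 / 2 * (q ^ (H - j) / (2 * N) ^ r) := by
  have hq0 : (0 : ℝ) < q := by linarith
  have hB : 1 < q ^ (δ / 2) := Real.one_lt_rpow (by linarith) (by positivity)
  have ht := tendsto_pow_const_div_const_pow_of_one_lt (2 * r) hB
  have hev := ht.eventually_lt_const (u := 1 / (2 * (2 * C) ^ r)) (by positivity)
  obtain ⟨n₀, hn₀⟩ := Filter.eventually_atTop.1 hev
  refine ⟨n₀ + 1, by omega, ?_⟩
  intro N hN H j hH hj hjH hjN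
  have h1 := hn₀ N (by omega)
  have hN0 : (0 : ℝ) < N := by exact_mod_cast (show 0 < N by omega)
  have hBN : (0 : ℝ) < (q ^ (δ / 2)) ^ N := by positivity
  rw [div_lt_div_iff₀ hBN (by positivity), one_mul] at h1
  -- `N^(2r) * (2 (2C)^r) < B^N`
  have h2 : (q ^ (δ / 2)) ^ N = q ^ (δ * N / 2) := by
    rw [← Real.rpow_natCast, ← Real.rpow_mul hq0.le]
    congr 1
    ring
  have h3 : q ^ (((N - j : ℕ) : ℝ) / 2) * q ^ (δ * N / 2) ≤ q ^ (H - j) := by
    rw [← Real.rpow_add hq0, ← Real.rpow_natCast q (H - j)]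
    apply Real.rpow_le_rpow_of_exponent_le (by linarith)
    rw [Nat.cast_sub hjN, Nat.cast_sub hjH]
    linarith
  have h4 : (0 : ℝ) < q ^ (((N - j : ℕ) : ℝ) / 2) := by positivity
  have h5 : (C * N) ^ r * (2 * N) ^ r * 2 ≤ q ^ (δ * N / 2) := by
    rw [← h2]
    refine le_trans (le_of_eq ?_) h1.le
    rw [mul_pow, mul_pow, mul_pow, pow_mul']
    ring
  have h6 : (0 : ℝ) < (2 * N) ^ r := by positivity
  have h7 : ((C * N) ^ r * q ^ (((N - j : ℕ) : ℝ) / 2)) * (2 * N) ^ r * 2 ≤ q ^ (H - j) := by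
    calc ((C * N) ^ r * q ^ (((N - j : ℕ) : ℝ) / 2)) * (2 * N) ^ r * 2
        = q ^ (((N - j : ℕ) : ℝ) / 2) * ((C * N) ^ r * (2 * N) ^ r * 2) := by ring
      _ ≤ q ^ (((N - j : ℕ) : ℝ) / 2) * q ^ (δ * N / 2) := by gcongr
      _ ≤ _ := h3
  rw [mul_div_assoc', le_div_iff₀ h6]
  linarith

/-- the arithmetic of the parameters -/
theorem params {η δ : ℝ} (hη : 0 < η) (hδ : 0 < δ) : ∃ (r : ℕ) (ν : ℝ), 1 ≤ r ∧ 0 < ν ∧
    ∃ n₀ : ℕ, ∀ N : ℕ, n₀ ≤ N → ∃ B l : ℕ, 4 ≤ B ∧ r * (B + r * l) ≤ N ∧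
      ((B + r * l : ℕ) : ℝ) ≤ η * N ∧ N < r * B + B ∧ (((N : ℝ) - r * B) ≤ δ * N) ∧
        ν / 2 * N ≤ l := by
  obtain ⟨r, hr1, hr2⟩ : ∃ r : ℕ, 1 ≤ r ∧ 1 / η ≤ r :=
    ⟨⌈1 / η⌉₊ + 1, by omega, by push_cast; linarith [Nat.le_ceil (1 / η)]⟩
  have hr0 : (1 : ℝ) ≤ r := by exact_mod_cast hr1
  have hrη : 1 ≤ η * r := by
    rw [div_le_iff₀ hη] at hr2
    linarith
  set ν : ℝ := min (δ / (2 * r ^ 2)) (1 / (4 * r ^ 3)) with hν
  have hν0 : 0 < ν := by
    rw [hν]
    exact lt_min (by positivity) (by positivity)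
  have hν1 : r ^ 2 * ν ≤ δ / 2 := by
    calc (r : ℝ) ^ 2 * ν ≤ r ^ 2 * (δ / (2 * r ^ 2)) := by
          gcongr
          exact min_le_left _ _
      _ = δ / 2 := by field_simp
  have hν2 : r ^ 3 * ν ≤ 1 / 4 := by
    calc (r : ℝ) ^ 3 * ν ≤ r ^ 3 * (1 / (4 * r ^ 3)) := by
          gcongr
          exact min_le_right _ _
      _ = 1 / 4 := by field_simp
  refine ⟨r, ν, hr1, hν0, ?_⟩
  obtain ⟨n₀, hn₀⟩ := exists_nat_ge (max (2 * r / δ) (max (2 * r * (r + 6)) (2 / ν)))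
  refine ⟨n₀, ?_⟩
  intro N hN
  have hN' : (n₀ : ℝ) ≤ N := by exact_mod_cast hN
  have hX := hn₀.trans hN'
  have hX1 : 2 * r / δ ≤ N := (le_max_left _ _).trans hX
  have hX2 : 2 * r * ((r : ℝ) + 6) ≤ N := (le_max_left _ _).trans ((le_max_right _ _).trans hX)
  have hX3 : 2 / ν ≤ N := (le_max_right _ _).trans ((le_max_right _ _).trans hX)
  rw [div_le_iff₀ hδ] at hX1
  rw [div_le_iff₀ hν0] at hX3
  have hN0 : (0 : ℝ) < N := by nlinarith
  set l : ℕ := ⌊ν * N⌋₊ with hl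
  have hl1 : (l : ℝ) ≤ ν * N := Nat.floor_le (by positivity)
  have hl2 : ν * N < l + 1 := Nat.lt_floor_add_one _
  set b : ℕ := N / r with hb
  have hb1 : r * b ≤ N := Nat.mul_div_le N r
  have hb2 : N < r * b + r := by
    have := Nat.lt_mul_div_succ N (show 0 < r by omega)
    rw [mul_add, mul_one] at this
    exact this
  have hb1' : (r : ℝ) * b ≤ N := by exact_mod_cast hb1
  have hb2' : (N : ℝ) < r * b + r := by exact_mod_cast hb2
  -- `r^2 l ≤ N/(4r)`
  have hl3 : (r : ℝ) ^ 3 * l ≤ N / 4 := by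
    calc (r : ℝ) ^ 3 * l ≤ r ^ 3 * (ν * N) := by gcongr
      _ = (r ^ 3 * ν) * N := by ring
      _ ≤ 1 / 4 * N := by gcongr
      _ = _ := by ring
  have hl4 : (r : ℝ) ^ 2 * l ≤ δ / 2 * N := by
    calc (r : ℝ) ^ 2 * l ≤ r ^ 2 * (ν * N) := by gcongr
      _ = (r ^ 2 * ν) * N := by ring
      _ ≤ δ / 2 * N := by gcongr
  have hl0 : (0 : ℝ) ≤ l := Nat.cast_nonneg _
  -- `r + (r^2 + r) l + 4 < b`
  have hkey : (r : ℝ) + (r ^ 2 + r) * l + 4 < b := by
    have h1 : (r : ℝ) * (r + (r ^ 2 + r) * l + 4) ≤ r * (r + 4) + 2 * (r ^ 3 * l) := by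
      have h2 : (r : ℝ) ^ 2 ≤ r ^ 3 := by
        nlinarith [sq_nonneg (r : ℝ)]
      nlinarith [mul_le_mul_of_nonneg_right h2 hl0]
    have h3 : (r : ℝ) * (r + (r ^ 2 + r) * l + 4) < r * b := by
      nlinarith
    exact lt_of_mul_lt_mul_left h3 (by linarith)
  have hkey' : r + (r ^ 2 + r) * l + 4 < b := by exact_mod_cast hkey
  have hrl : r * l ≤ (r ^ 2 + r) * l := Nat.mul_le_mul_right _ (by omega)
  have hBb : b - r * l + r * l = b := Nat.sub_add_cancel (by omega)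
  refine ⟨b - r * l, l, by omega, ?_, ?_, ?_, ?_, ?_⟩
  · rw [hBb]
    exact hb1
  · rw [hBb]
    have : (b : ℝ) ≤ b * (η * r) := le_mul_of_one_le_right (Nat.cast_nonneg _) hrη
    calc (b : ℝ) ≤ b * (η * r) := this
      _ = η * (r * b) := by ring
      _ ≤ η * N := by gcongr
  · have h1 : ((b - r * l : ℕ) : ℝ) = b - r * l := by
      rw [Nat.cast_sub (by omega)]
      push_cast
      ring
    have h2 : (N : ℝ) < r * ((b - r * l : ℕ) : ℝ) + ((b - r * l : ℕ) : ℝ) := by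
      rw [h1]
      nlinarith
    exact_mod_cast h2
  · have h1 : ((b - r * l : ℕ) : ℝ) = b - r * l := by
      rw [Nat.cast_sub (by omega)]
      push_cast
      ring
    rw [h1]
    nlinarith
  · nlinarith

theorem dvd_irn {a b : ℕ} {P Q : K[X]} (hP : P ∈ Irn K a) (hQ : Q ∈ Irn K b) (h : P ∣ Q) :
    P = Q := by
  rw [mem_Irn] at hP hQ
  exact eq_of_monic_of_associated hP.1 hQ.1 (hP.2.2.associated_of_dvd hQ.2.2 h)

theorem rng {B l i k x : ℕ} (h1 : B + i * l ≤ x) (h2 : x < B + (i + 1) * l)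
    (h3 : B + k * l ≤ x) (h4 : x < B + (k + 1) * l) : i = k := by
  rcases lt_trichotomy i k with h | h | h
  · have := Nat.mul_le_mul_right l (show i + 1 ≤ k by omega)
    omega
  · exact h
  · have := Nat.mul_le_mul_right l (show k + 1 ≤ i by omega)
    omega

theorem not_dvd_low {B a : ℕ} {P w : K[X]} (hP : P ∈ Irn K a) (ha : B ≤ a) (hw : w.Monic)
    (hwB : w.natDegree < B) : ¬ P ∣ w := by
  intro h
  have h1 := natDegree_le_of_dvd h hw.ne_zero
  rw [(mem_Irn.1 hP).2.1] at h1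
  omega

theorem inj_aux {r B l : ℕ} {a a' : Fin r → ℕ}
    (ha : ∀ i : Fin r, B + (i : ℕ) * l ≤ a i ∧ a i < B + ((i : ℕ) + 1) * l)
    (ha' : ∀ i : Fin r, B + (i : ℕ) * l ≤ a' i ∧ a' i < B + ((i : ℕ) + 1) * l)
    {w w' : K[X]} {P P' : Fin r → K[X]} (hw' : w'.Monic)
    (hwB' : w'.natDegree < B) (hP : ∀ i, P i ∈ Irn K (a i)) (hP' : ∀ i, P' i ∈ Irn K (a' i))
    (h : w * ∏ i, P i = w' * ∏ i, P' i) : a = a' ∧ w = w' ∧ P = P' := by
  have key : ∀ i, P i = P' i := by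
    intro i
    have hi := mem_Irn.1 (hP i)
    have h1 : P i ∣ w' * ∏ i, P' i := by
      rw [← h]
      exact (Finset.dvd_prod_of_mem P (Finset.mem_univ i)).trans (dvd_mul_left _ _)
    rcases hi.2.2.prime.dvd_or_dvd h1 with h2 | h2
    · exact absurd h2 (not_dvd_low (hP i) (by have := (ha i).1; omega) hw' hwB')
    · obtain ⟨k, -, hk⟩ := (hi.2.2.prime.dvd_finsetProd_iff _).1 h2
      have h3 := dvd_irn (hP i) (hP' k) hk
      have h4 : a i = a' k := by
        rw [← (mem_Irn.1 (hP i)).2.1, ← (mem_Irn.1 (hP' k)).2.1, h3]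
      have h5 : (i : ℕ) = (k : ℕ) := rng (ha i).1 (ha i).2 (h4 ▸ (ha' k).1) (h4 ▸ (ha' k).2)
      have h6 : i = k := Fin.ext h5
      rw [h3, h6]
  have hPP : P = P' := funext key
  refine ⟨?_, ?_, hPP⟩
  · funext i
    rw [← (mem_Irn.1 (hP i)).2.1, ← (mem_Irn.1 (hP' i)).2.1, key i]
  · rw [hPP] at h
    refine mul_right_cancel₀ ?_ h
    exact Finset.prod_ne_zero_iff.2 fun i _ => (mem_Irn.1 (hP' i)).1.ne_zero

theorem mem_aux {r B l N H y j : ℕ} {S : K[X]} {a : Fin r → ℕ}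
    (ha : ∀ i : Fin r, B + (i : ℕ) * l ≤ a i ∧ a i < B + ((i : ℕ) + 1) * l)
    (hay : ∀ i, a i ≤ y) (hjy : j ≤ y) (hjB : j < B) (haj : ∑ i, a i + j = N)
    {w : K[X]} (hw : w ∈ Qn K j) {P : Fin r → K[X]} (hP : ∀ i, P i ∈ Irn K (a i))
    (hd : (w * ∏ i, P i - S).degree < (H : WithBot ℕ)) : w * ∏ i, P i ∈ SmI K N H y S := by
  rw [mem_Qn] at hw
  obtain ⟨hw, hwj, hws⟩ := hw
  have hPm : (∏ i, P i).Monic := monic_prod_of_monic _ _ fun i _ => (mem_Irn.1 (hP i)).1
  have hPd : (∏ i, P i).natDegree = ∑ i, a i := by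
    rw [natDegree_prod_of_monic _ _ fun i _ => (mem_Irn.1 (hP i)).1]
    exact sum_congr rfl fun i _ => (mem_Irn.1 (hP i)).2.1
  have hnw : ∀ i, ¬ P i ∣ w := fun i => not_dvd_low (B := B) (hP i)
    (by have := (ha i).1; omega) hw (by omega)
  unfold SmI
  rw [mem_filter, mem_Mn]
  refine ⟨⟨hw.mul hPm, ?_⟩, hd, ?_, ?_⟩
  · rw [hw.natDegree_mul hPm, hPd, hwj]
    omega
  · rw [squarefree_mul_iff]
    refine ⟨?_, hws, ?_⟩
    · refine IsRelPrime.prod_right fun i _ => ?_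
      exact ((mem_Irn.1 (hP i)).2.2.isRelPrime_iff_not_dvd.2 (hnw i)).symm
    · refine Finset.squarefree_prod_of_pairwise_isCoprime ?_ fun i _ =>
        (mem_Irn.1 (hP i)).2.2.squarefree
      intro i _ k _ hik
      refine (mem_Irn.1 (hP i)).2.2.isRelPrime_iff_not_dvd.2 fun h => hik ?_
      have h3 := dvd_irn (hP i) (hP k) h
      have h4 : a i = a k := by
        rw [← (mem_Irn.1 (hP i)).2.1, ← (mem_Irn.1 (hP k)).2.1, h3]
      exact Fin.ext (rng (ha i).1 (ha i).2 (h4 ▸ (ha k).1) (h4 ▸ (ha k).2))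
  · intro Q hQ hQi hQd
    rcases hQi.prime.dvd_or_dvd hQd with h | h
    · have := natDegree_le_of_dvd h hw.ne_zero
      omega
    · obtain ⟨k, -, hk⟩ := (hQi.prime.dvd_finsetProd_iff _).1 h
      have := natDegree_le_of_dvd hk (mem_Irn.1 (hP k)).1.ne_zero
      rw [(mem_Irn.1 (hP k)).2.1] at this
      exact this.trans (hay k)

/-- **Task SM.** -/
theorem sm (hp : S_prd) : S_sm := by
  intro K _ _ η δ hη hδ
  obtain ⟨r, ν, hr, hν, n₁, hn₁⟩ := params hη hδ
  obtain ⟨C, hC, hP⟩ := hp K r hr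
  have hq := q_ge (k := K)
  obtain ⟨n₂, hn₂1, hn₂⟩ := err (r := r) hC hδ hq
  refine ⟨(ν / 4) ^ r / 8, by positivity, max n₁ n₂, ?_⟩
  intro N hN H y S hH hHN hy hS hSN
  obtain ⟨B, l, hB, hb1, hb2, hb3, hb4, hl⟩ := hn₁ N (le_of_max_le_left hN)
  have hN2 : n₂ ≤ N := le_of_max_le_right hN
  have hN0 : (0 : ℝ) < N := by exact_mod_cast (show 0 < N by omega)
  have hby : B + r * l ≤ y := by
    have : ((B + r * l : ℕ) : ℝ) ≤ y := hb2.trans hy
    exact_mod_cast this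
  set A : Fin r → Finset ℕ := fun i => Finset.Ico (B + (i : ℕ) * l) (B + ((i : ℕ) + 1) * l) with hA
  have hmem : ∀ a ∈ Fintype.piFinset A,
      ∀ i : Fin r, B + (i : ℕ) * l ≤ a i ∧ a i < B + ((i : ℕ) + 1) * l := by
    intro a ha i
    exact mem_Ico.1 (Fintype.mem_piFinset.1 ha i)
  have hup : ∀ a ∈ Fintype.piFinset A, ∀ i : Fin r, a i ≤ B + r * l := by
    intro a ha i
    have h1 := (hmem a ha i).2
    have h2 := Nat.mul_le_mul_right l (show (i : ℕ) + 1 ≤ r from i.2)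
    omega
  have hsum1 : ∀ a ∈ Fintype.piFinset A, ∑ i, a i ≤ N := by
    intro a ha
    refine le_trans (sum_le_sum fun i _ => hup a ha i) ?_
    rw [sum_const, Finset.card_univ, Fintype.card_fin, smul_eq_mul]
    exact hb1
  have hsum2 : ∀ a ∈ Fintype.piFinset A, r * B ≤ ∑ i, a i := by
    intro a ha
    refine le_trans (le_of_eq ?_) (sum_le_sum (f := fun _ : Fin r => B) fun i _ => ?_)
    · rw [sum_const, Finset.card_univ, Fintype.card_fin, smul_eq_mul]
    · have := (hmem a ha i).1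
      omega
  have hjB : ∀ a ∈ Fintype.piFinset A, N - ∑ i, a i < B := by
    intro a ha
    have h1 := hsum2 a ha
    omega
  have hjδ : ∀ a ∈ Fintype.piFinset A, ((N - ∑ i, a i : ℕ) : ℝ) ≤ δ * N := by
    intro a ha
    refine le_trans ?_ hb4
    rw [Nat.cast_sub (hsum1 a ha)]
    have h1 : ((r * B : ℕ) : ℝ) ≤ ((∑ i, a i : ℕ) : ℝ) := by exact_mod_cast hsum2 a ha
    rw [Nat.cast_mul] at h1
    linarith
  have hjH : ∀ a ∈ Fintype.piFinset A, N - ∑ i, a i ≤ H := by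
    intro a ha
    have h1 := hjδ a ha
    have h2 : ((N - ∑ i, a i : ℕ) : ℝ) ≤ H := by linarith
    exact_mod_cast h2
  set T : Finset (Σ _ : (Fin r → ℕ), Σ _ : K[X], (Fin r → K[X])) :=
    (Fintype.piFinset A).sigma fun a => (Qn K (N - ∑ i, a i)).sigma fun w =>
      (Fintype.piFinset fun i => Irn K (a i)).filter
        (fun P => (w * ∏ i, P i - S).degree < (H : WithBot ℕ)) with hT
  -- the injection
  have hcard : T.card ≤ (SmI K N H y S).card := by
    refine card_le_card_of_injOn (fun t => t.2.1 * ∏ i, t.2.2 i) ?_ ?_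
    · rintro ⟨a, w, P⟩ ht
      rw [hT, mem_coe, mem_sigma] at ht
      obtain ⟨ha, ht⟩ := ht
      rw [mem_sigma] at ht
      obtain ⟨hw, ht⟩ := ht
      rw [mem_filter] at ht
      have h1 := hsum1 a ha
      refine mem_aux (hmem a ha) (fun i => (hup a ha i).trans hby) ?_ (hjB a ha) (by omega) hw
        (Fintype.mem_piFinset.1 ht.1) ht.2
      have := hjB a ha
      omega
    · rintro ⟨a, w, P⟩ ht ⟨a', w', P'⟩ ht' heq
      rw [hT, mem_coe, mem_sigma] at ht ht'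
      obtain ⟨ha, ht⟩ := ht
      obtain ⟨ha', ht'⟩ := ht'
      rw [mem_sigma] at ht ht'
      obtain ⟨hw, ht⟩ := ht
      obtain ⟨hw', ht'⟩ := ht'
      rw [mem_filter] at ht ht'
      have hw1 := mem_Qn.1 hw'
      have hB1 := hjB a' ha'
      obtain ⟨e1, e2, e3⟩ := inj_aux (hmem a ha) (hmem a' ha') hw1.1 (by rw [hw1.2.1]; exact hB1)
        (Fintype.mem_piFinset.1 ht.1) (Fintype.mem_piFinset.1 ht'.1) heq
      simp only at e1 e2 e3
      subst e1
      subst e2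
      subst e3
      rfl
  -- the count
  have hinner : ∀ a ∈ Fintype.piFinset A, (Fintype.card K : ℝ) ^ H / (8 * (2 * N) ^ r) ≤
      ∑ w ∈ Qn K (N - ∑ i, a i), (((Fintype.piFinset fun i => Irn K (a i)).filter
        (fun P => (w * ∏ i, P i - S).degree < (H : WithBot ℕ))).card : ℝ) := by
    intro a ha
    have h1 := hsum1 a ha
    have h2 := hjH a ha
    set j := N - ∑ i, a i with hj
    have h3 : ∀ w ∈ Qn K j, 1 / 2 * ((Fintype.card K : ℝ) ^ (H - j) / (2 * N) ^ r) ≤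
        (((Fintype.piFinset fun i => Irn K (a i)).filter
          (fun P => (w * ∏ i, P i - S).degree < (H : WithBot ℕ))).card : ℝ) := by
      intro w hw
      rw [mem_Qn] at hw
      have h4 := perw hC hP a (fun i => hB.trans (by have := (hmem a ha i).1; omega))
        (show ∑ i, a i + j = N by omega) h2 hHN hS hSN hw.1 hw.2.1
      have h5 := hn₂ N hN2 H j hH (hjδ a ha) h2 (by omega)
      linarith
    refine le_trans ?_ (sum_le_sum h3)
    rw [sum_const, nsmul_eq_mul]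
    have h6 := sqf_lower (K := K) j
    have h7 : (Fintype.card K : ℝ) ^ H = (Fintype.card K : ℝ) ^ j * (Fintype.card K : ℝ) ^ (H - j) := by
      rw [← pow_add]
      congr 1
      omega
    calc (Fintype.card K : ℝ) ^ H / (8 * (2 * N) ^ r) = ((Fintype.card K : ℝ) ^ j / 4) *
        (1 / 2 * ((Fintype.card K : ℝ) ^ (H - j) / (2 * N) ^ r)) := by
          rw [h7]
          field_simp
          norm_num
      _ ≤ _ := by gcongr
  have hTc : (T.card : ℝ) = ∑ a ∈ Fintype.piFinset A, ∑ w ∈ Qn K (N - ∑ i, a i),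
      (((Fintype.piFinset fun i => Irn K (a i)).filter
        (fun P => (w * ∏ i, P i - S).degree < (H : WithBot ℕ))).card : ℝ) := by
    rw [hT, card_sigma]
    push_cast
    refine sum_congr rfl fun a _ => ?_
    rw [card_sigma]
    push_cast
    rfl
  have hA' : ((Fintype.piFinset A).card : ℝ) = (l : ℝ) ^ r := by
    rw [Fintype.card_piFinset]
    have : ∀ i : Fin r, (A i).card = l := by
      intro i
      rw [hA]
      simp only [Nat.card_Ico]
      rw [add_mul, one_mul]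
      omega
    rw [prod_congr rfl fun i _ => this i, prod_const, Finset.card_univ, Fintype.card_fin]
    push_cast
    rfl
  have h1 : (l : ℝ) ^ r * ((Fintype.card K : ℝ) ^ H / (8 * (2 * N) ^ r)) ≤ (T.card : ℝ) := by
    rw [hTc, ← hA', ← nsmul_eq_mul, ← sum_const]
    exact sum_le_sum hinner
  have h2 : (T.card : ℝ) ≤ ((SmI K N H y S).card : ℝ) := by exact_mod_cast hcard
  refine le_trans ?_ (h1.trans h2)
  calc (ν / 4) ^ r / 8 * (Fintype.card K : ℝ) ^ H
      = (ν / 2 * N) ^ r * ((Fintype.card K : ℝ) ^ H / (8 * (2 * N) ^ r)) := by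
        have e : (ν / 2 * N) ^ r = (ν / 4) ^ r * (2 * N) ^ r := by
          rw [← mul_pow]
          congr 1
          ring
        rw [e]
        field_simp
    _ ≤ _ := by gcongr

end Pool.Agent.H113.SI
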